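import Mathlib
import Pool.Agent.Helper36.NB.Defs

open scoped BigOperators MonoidAlgebra
open Classical

namespace Pool.Agent.Helper36.NB

/-- Fitting idempotent of an element of a finite-dimensional algebra. -/
theorem fitting {k A : Type} [Field k] [Ring A] [Algebra k A] [FiniteDimensional k A] (a : A) :
    ∃ f b : A, f ∈ Algebra.adjoin k {a} ∧ b ∈ Algebra.adjoin k {a} ∧ f * f = f ∧ a * b = f ∧
      IsNilpotent (a * (1 - f)) := by
  sorry

end Pool.Agent.Helper36.NB
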