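import Mathlib
import Pool.Agent.Helper36.NB.Defs

open scoped BigOperators MonoidAlgebra
open Classical

namespace Pool.Agent.Helper36.NB

variable (O : ValuationSubring ℂ) {G : Type} [Group G] [Finite G]

theorem toK_surjective : Function.Surjective (toK O G) := by
  sorry

theorem isUnit_of_toK {a : MonoidAlgebra O G} (h : IsUnit (toK O G a)) : IsUnit a := by
  sorry

/-- An idempotent of `O[G]` with zero image in `k[G]` is zero. -/
theorem idem_eq_zero {f : MonoidAlgebra O G} (hf : f * f = f) (h : toK O G f = 0) : f = 0 := by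
  sorry

/-- Inverses in the corner `f O[G] f`. -/
theorem corner_inv {f a : MonoidAlgebra O G} (hf : f * f = f) (hfa : f * a = a)
    (haf : a * f = a) {b : MonoidAlgebra (resK O) G} (hb : toK O G a * b = toK O G f) :
    ∃ c, f * c = c ∧ c * f = c ∧ a * c = f ∧ c * a = f ∧
      ∀ w, w * f = f * w → w * a = a * w → w * c = c * w := by
  sorry

theorem resK_charP (h2 : (2 : O) ∈ IsLocalRing.maximalIdeal O) : CharP (resK O) 2 := by
  sorry

theorem resK_isAlgClosed : IsAlgClosed (resK O) := by
  sorry

end Pool.Agent.Helper36.NB
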