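import Mathlib
import Pool.Agent.Helper36.NB.Defs

open scoped BigOperators MonoidAlgebra
open Classical

namespace Pool.Agent.Helper36.NB

/-- Lifting of idempotents of `k[G]` to `O[G]`, preserving all symmetries. -/
theorem lift_sym (O : ValuationSubring ℂ) {G : Type} [Group G] [Finite G]
    (e : MonoidAlgebra O G) (he : e * e = e) (hec : ∀ a, a * e = e * a)
    (a : MonoidAlgebra (resK O) G) (ha : a * a = a) (hae : a * toK O G e = a) :
    ∃ i : MonoidAlgebra O G, toK O G i = a ∧ i * i = i ∧ i * e = i ∧
      ∀ σ : G → G, Function.Bijective σ →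
        ((∀ g h, σ (g * h) = σ g * σ h) ∨ (∀ g h, σ (g * h) = σ h * σ g)) →
        MonoidAlgebra.mapDomain σ e = e → MonoidAlgebra.mapDomain σ a = a →
        MonoidAlgebra.mapDomain σ i = i := by
  sorry

end Pool.Agent.Helper36.NB
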