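import Mathlib
import Pool.Agent.Helper36.NB.Defs

open scoped BigOperators MonoidAlgebra
open Classical

namespace Pool.Agent.Helper36.NB

/-- The vanishing lemma. -/
theorem vanish (O : ValuationSubring ℂ) {G : Type} [Group G] [Finite G]
    (h2 : (2 : O) ∈ IsLocalRing.maximalIdeal O) (u : G) (hu : ∃ n : ℕ, orderOf u = 2 ^ n)
    (f : MonoidAlgebra O G) (hf : f * f = f) (hfu : el O u * f = f * el O u)
    (h0 : ∀ g, g * u = u * g → (toK O G f).coeff g = 0) (T : TraceFun O G) (k : ℕ)
    (hk : Odd k) : T.f (el O (u ^ k) * f) = 0 := by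
  sorry

end Pool.Agent.Helper36.NB
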