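import Mathlib
import Pool.Agent.Helper36.NB.Defs

open scoped BigOperators MonoidAlgebra
open Classical

namespace Pool.Agent.Helper36.NB

theorem trace_eq (O : ValuationSubring ℂ) {G : Type} [Group G] [Finite G]
    (h2 : (2 : O) ∈ IsLocalRing.maximalIdeal O) (u : G) (hu : ∃ n : ℕ, orderOf u = 2 ^ n)
    (i y : MonoidAlgebra O G) (hi : i * i = i) (hy : y * y = y)
    (hiu : el O u * i = i * el O u) (hyu : el O u * y = y * el O u)
    (h : ∀ g, g * u = u * g → (toK O G i).coeff g = (toK O G y).coeff g)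
    (T : TraceFun O G) (k : ℕ) (hk : Odd k) :
    T.f (el O (u ^ k) * i) = T.f (el O (u ^ k) * y) := by
  sorry

end Pool.Agent.Helper36.NB
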