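import Mathlib
import Pool.Agent.Helper36.NB.Defs

open scoped BigOperators MonoidAlgebra
open Classical

namespace Pool.Agent.Helper36.NB

/-- The average of an idempotent over a class of elements of even order is zero. -/
theorem proj_vanish (O : ValuationSubring ℂ) {G : Type} [Group G] [Fintype G]
    (h2 : (2 : O) ∈ IsLocalRing.maximalIdeal O) (x : MonoidAlgebra O G) (hx : x * x = x)
    (s : G) (hs : Even (orderOf s)) : ∑ g : G, x.coeff (g⁻¹ * s * g) = 0 := by
  sorry

end Pool.Agent.Helper36.NB
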