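import Mathlib
import Pool.Agent.Helper36.NB.Defs

open scoped BigOperators MonoidAlgebra
open Classical

namespace Pool.Agent.Helper36.NB

variable (O : ValuationSubring ℂ) {G : Type} [Group G] [Finite G]

theorem exists_rank_one (B : MonoidAlgebra O G) (hB : B * B = B) (hBc : ∀ a, a * B = B * a)
    (S : SimpleQuot (toK O G B)) :
    ∃ j : MonoidAlgebra O G, j * j = j ∧ j * B = j ∧ (S.ρ (toK O G j)).rank = 1 := by
  sorry

/-- The values of central functions on idempotents. -/
theorem trace_rank (B : MonoidAlgebra O G) (hB : B * B = B) (hBc : ∀ a, a * B = B * a)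
    (S : SimpleQuot (toK O G B)) (j : MonoidAlgebra O G) (hj : j * j = j) (hjB : j * B = j)
    (hj1 : (S.ρ (toK O G j)).rank = 1) (y : MonoidAlgebra O G) (hy : y * y = y)
    (hyB : y * B = y) (T : TraceFun O G) :
    T.f y = ((S.ρ (toK O G y)).rank : ℂ) * T.f j := by
  sorry

theorem prim_rank (B : MonoidAlgebra O G) (hB : B * B = B) (hBc : ∀ a, a * B = B * a)
    (S : SimpleQuot (toK O G B)) (j : MonoidAlgebra O G) (hj : j * j = j) (hjB : j * B = j)
    (hj0 : j ≠ 0) (hprim : ∀ f, f * f = f → f * j = f → j * f = f → f = 0 ∨ f = j) :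
    (S.ρ (toK O G j)).rank = 1 := by
  sorry

end Pool.Agent.Helper36.NB
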