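import Mathlib
import Pool.Agent.Helper36.NB.Defs

open scoped BigOperators MonoidAlgebra
open Classical

namespace Pool.Agent.Helper36.NB

theorem simpleQuot_of_oneSimple {k : Type} [Field k] [IsAlgClosed k] {H : Type} [Group H]
    [Finite H] (b : MonoidAlgebra k H) (hb0 : b ≠ 0) (hb : b * b = b)
    (hbc : ∀ a, a * b = b * a) (h : OneSimple b) : Nonempty (SimpleQuot b) := by
  sorry

theorem exists_block {k : Type} [Field k] {H : Type} [Group H] [Finite H]
    (y : MonoidAlgebra k H) (hy : y ≠ 0) : ∃ b : MonoidAlgebra k H, IsBlock b ∧ y * b ≠ 0 := by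
  sorry

end Pool.Agent.Helper36.NB
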