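import Mathlib
import Pool.Agent.Helper36.NB.Defs

open scoped BigOperators MonoidAlgebra
open Classical

namespace Pool.Agent.Helper36.NB

/-- The lifted Brauer character value at an element of odd order. -/
theorem brauer_val (O : ValuationSubring ℂ) {G : Type} [Group G] [Finite G]
    (h2 : (2 : O) ∈ IsLocalRing.maximalIdeal O)
    (B : MonoidAlgebra O G) (hB : B * B = B) (hBc : ∀ a, a * B = B * a)
    (S : SimpleQuot (toK O G B)) (j : MonoidAlgebra O G) (hj : j * j = j) (hjB : j * B = j)
    (hj1 : (S.ρ (toK O G j)).rank = 1) (s : G) (hs : Odd (orderOf s)) :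
    ∃ φ : O, IsIntegral ℤ (φ : ℂ) ∧
      IsLocalRing.residue O φ = (S.ρ (el (resK O) s)).trace ∧
      ∀ T : TraceFun O G, T.f (el O s * B) = (φ : ℂ) * T.f j := by
  sorry

end Pool.Agent.Helper36.NB
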