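import Mathlib
import Pool.Agent.Helper36.NB.Defs

open scoped BigOperators MonoidAlgebra
open Classical

namespace Pool.Agent.Helper36.NB

/-- Restriction of the block `B` to a group of odd order. -/
theorem rep_odd (O : ValuationSubring ℂ) {G : Type} [Group G] [Finite G]
    (h2 : (2 : O) ∈ IsLocalRing.maximalIdeal O)
    (B : MonoidAlgebra O G) (hB : B * B = B) (hBc : ∀ a, a * B = B * a)
    (S : SimpleQuot (toK O G B)) (j : MonoidAlgebra O G) (hj : j * j = j) (hjB : j * B = j)
    (hj1 : (S.ρ (toK O G j)).rank = 1) (L : Type) [Group L] [Finite L]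
    (hL : Odd (Nat.card L)) (φ : L →* G) :
    ∃ η : L → ℂ, IsChar η ∧
      ∀ (l : L) (T : TraceFun O G), T.f (el O (φ l) * B) = η l * T.f j := by
  sorry

end Pool.Agent.Helper36.NB
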