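import Mathlib
import Pool.Agent.Helper36.NB.Defs

open scoped BigOperators MonoidAlgebra
open Classical

namespace Pool.Agent.Helper36.NB

/-- A `ψ`-fixed idempotent in a single factor of the semisimple quotient. -/
theorem exists_homog {k R : Type} [Field k] [IsAlgClosed k] [CharP k 2] [Ring R] [Algebra k R]
    [FiniteDimensional k R] (ψ : R →ₗ[k] R) (hψm : ∀ a b, ψ (a * b) = ψ b * ψ a)
    (hψψ : ∀ a, ψ (ψ a) = a) (lam : R →ₗ[k] k) (hlam : ∀ a b, lam (a * b) = lam (b * a))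
    (hnil : ∀ a, IsNilpotent a → lam a = 0) (hlamψ : ∀ a, lam (ψ a) = lam a)
    (ε : R) (hε : ε * ε = ε) (hεψ : ψ ε = ε) (hlamε : lam ε ≠ 0) :
    ∃ i : R, i * i = i ∧ ψ i = i ∧ ε * i = i ∧ i * ε = i ∧ lam i ≠ 0 ∧
      ∀ a, i * a = a → a * i = a → ¬ IsNilpotent a →
        ∃ (m : ℕ) (x y : Fin m → R), i = ∑ l, x l * a * y l := by
  sorry

end Pool.Agent.Helper36.NB
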