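import Mathlib
import Pool.Agent.Helper36.NB.Defs

open scoped BigOperators MonoidAlgebra
open Classical

namespace Pool.Agent.Helper36.NB

/-- The simple module of a real block is self-dual. -/
theorem trace_inv {k : Type} [Field k] {G : Type} [Group G] [Finite G]
    (e : MonoidAlgebra k G) (hee : inv' e = e) (S : SimpleQuot e) (a : MonoidAlgebra k G) :
    (S.ρ (inv' a)).trace = (S.ρ a).trace := by
  sorry

theorem exists_eps {k : Type} [Field k] [IsAlgClosed k] [CharP k 2] {G : Type} [Group G]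
    [Finite G] (x t : G) (hx : Odd (orderOf x)) (htx : t * x * t⁻¹ = x⁻¹)
    (lam : MonoidAlgebra k G →ₗ[k] k) (hx0 : lam (el k x) ≠ 0) :
    ∃ ε ∈ Algebra.adjoin k {el k x}, ε * ε = ε ∧ el k t * inv' ε * el k t⁻¹ = ε ∧
      lam ε ≠ 0 := by
  sorry

theorem exists_primitive {k R : Type} [Field k] [Ring R] [Algebra k R] [FiniteDimensional k R]
    (lam : R →ₗ[k] k) (i : R) (hi : i * i = i) (hlam : lam i ≠ 0) :
    ∃ q : R, q * q = q ∧ i * q = q ∧ q * i = q ∧ lam q ≠ 0 ∧
      ∀ f, f * f = f → q * f = f → f * q = f → f = 0 ∨ f = q := by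
  sorry

end Pool.Agent.Helper36.NB
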