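import Mathlib
import Pool.Agent.Helper36.NB.Defs

open scoped BigOperators MonoidAlgebra
open Classical

namespace Pool.Agent.Helper36.NB

/-- The Brauer construction of `i` lies in a single block for every subgroup of `D`. -/
theorem single_block {k : Type} [Field k] [CharP k 2] {G : Type} [Group G] [Finite G]
    (D : Subgroup G) (hD : IsPGroup 2 D) (i : MonoidAlgebra k G) (hi : i * i = i)
    (hiD : Cen D i) (lam : MonoidAlgebra k G →ₗ[k] k)
    (hlam : ∀ a b, lam (a * b) = lam (b * a)) (hlami : lam i ≠ 0)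
    (hH : ∀ a, Cen D a → i * a = a → a * i = a → ¬ IsNilpotent a →
      ∃ (m : ℕ) (x y : Fin m → MonoidAlgebra k G), (∀ l, Cen D (x l)) ∧ (∀ l, Cen D (y l)) ∧
        i = ∑ l, x l * a * y l)
    (Q : Subgroup G) (hQ : Q ≤ D) (H : Subgroup G)
    (hHQ : H = Subgroup.centralizer (Q : Set G)) (f : MonoidAlgebra k H) (hf : f * f = f)
    (hfc : ∀ a, a * f = f * a) : res H i * f = 0 ∨ res H i * f = res H i := by
  sorry

end Pool.Agent.Helper36.NB
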