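import Mathlib
import Pool.Agent.Helper36.NB.Defs

open scoped BigOperators MonoidAlgebra
open Classical

namespace Pool.Agent.Helper36.NB

theorem exists_irrData (G : Type) [Group G] [Finite G] : Nonempty (IrrData G) := by
  sorry

variable {G : Type} [Group G] [Fintype G] (I : IrrData G)

theorem chi_add (a : Fin I.r) (x y : MonoidAlgebra ℂ G) :
    I.chi a (x + y) = I.chi a x + I.chi a y := by
  sorry

theorem chi_smul (a : Fin I.r) (c : ℂ) (x : MonoidAlgebra ℂ G) :
    I.chi a (c • x) = c * I.chi a x := by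
  sorry

theorem chi_sum {κ : Type} (s : Finset κ) (a : Fin I.r) (x : κ → MonoidAlgebra ℂ G) :
    I.chi a (∑ i ∈ s, x i) = ∑ i ∈ s, I.chi a (x i) := by
  sorry

theorem chi_mul_comm (a : Fin I.r) (x y : MonoidAlgebra ℂ G) :
    I.chi a (x * y) = I.chi a (y * x) := by
  sorry

theorem chi_one (a : Fin I.r) : I.chi a 1 = I.d a := by
  sorry

theorem chi_eq_sum (a : Fin I.r) (x : MonoidAlgebra ℂ G) :
    I.chi a x = ∑ g : G, x.coeff g * I.ch a g := by
  sorry

/-- The value of an irreducible character at an idempotent is a natural number. -/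
theorem chi_idem (a : Fin I.r) (x : MonoidAlgebra ℂ G) (hx : x * x = x) :
    ∃ m : ℕ, I.chi a x = m := by
  sorry

/-- A central idempotent is `0` or `1` in every component. -/
theorem chi_central (a : Fin I.r) (x : MonoidAlgebra ℂ G) (hx : x * x = x)
    (hc : ∀ y, y * x = x * y) : I.equiv x a = 0 ∨ I.equiv x a = 1 := by
  sorry

theorem sum_chi_mul (x y : MonoidAlgebra ℂ G) :
    ∑ a, I.chi a x * I.chi a y = ∑ g : G, (x * el ℂ g * y).coeff g := by
  sorry

theorem ch_isChar (a : Fin I.r) : IsChar (I.ch a) := by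
  sorry

/-- The first orthogonality relation. -/
theorem ch_orth (a b : Fin I.r) :
    (∑ g : G, I.ch a g * I.ch b g⁻¹) / (Nat.card G : ℂ) = if a = b then 1 else 0 := by
  sorry

/-- Every class function is a linear combination of the irreducible characters. -/
theorem class_expand (F : G → ℂ) (hF : ∀ g h, F (g * h * g⁻¹) = F h) (g : G) :
    F g = ∑ a, ((∑ h : G, F h * I.ch a h⁻¹) / (Nat.card G : ℂ)) * I.ch a g := by
  sorry

theorem ch_conj (a : Fin I.r) (g : G) : I.ch a g⁻¹ = (starRingEnd ℂ) (I.ch a g) := by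
  sorry

/-- Complex conjugation of the irreducible characters. -/
theorem exists_bar : ∃ bar : Fin I.r → Fin I.r, (∀ a, bar (bar a) = a) ∧
    ∀ a x, I.chi (bar a) x = I.chi a (inv' x) := by
  sorry

end Pool.Agent.Helper36.NB
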