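import Mathlib
import Pool.Agent.Helper36.NB.Defs

open scoped BigOperators MonoidAlgebra
open Classical

namespace Pool.Agent.Helper36.NB

/-- Inner products of characters are natural numbers. -/
theorem char_inner {G : Type} [Group G] [Fintype G] (η θ : G → ℂ) (hη : IsChar η)
    (hθ : IsChar θ) : ∃ m : ℕ, (∑ g : G, η g * θ g⁻¹) / (Nat.card G : ℂ) = m := by
  sorry

theorem isChar_mul {G : Type} [Group G] [Finite G] {η θ : G → ℂ} (hη : IsChar η)
    (hθ : IsChar θ) : IsChar (fun g => η g * θ g) := by
  sorry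

theorem isChar_one {G : Type} [Group G] [Finite G] : IsChar (fun _ : G => (1 : ℂ)) := by
  sorry

theorem isChar_dual {G : Type} [Group G] [Finite G] {η : G → ℂ} (hη : IsChar η) :
    IsChar (fun g => η g⁻¹) := by
  sorry

theorem isChar_conj {G : Type} [Group G] [Finite G] {η : G → ℂ} (hη : IsChar η) (g : G) :
    η g⁻¹ = (starRingEnd ℂ) (η g) := by
  sorry

theorem isChar_class {G : Type} [Group G] [Finite G] {η : G → ℂ} (hη : IsChar η) (g h : G) :
    η (g * h * g⁻¹) = η h := by
  sorry

theorem isChar_integral {G : Type} [Group G] [Finite G] {η : G → ℂ} (hη : IsChar η) (g : G) :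
    IsIntegral ℤ (η g) := by
  sorry

/-- Character values of a `2`-group are congruent to the degree modulo every prime over `2`. -/
theorem isChar_two {G : Type} [Group G] [Finite G] (hG : IsPGroup 2 G) {η : G → ℂ}
    (hη : IsChar η) (O : ValuationSubring ℂ) (h2 : (2 : O) ∈ IsLocalRing.maximalIdeal O)
    (g : G) : ∃ y : O, y ∈ IsLocalRing.maximalIdeal O ∧ η g = η 1 + (y : ℂ) := by
  sorry

end Pool.Agent.Helper36.NB
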