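import Mathlib
import Pool.Agent.Helper36.NB.Defs

open scoped BigOperators MonoidAlgebra
open Classical

namespace Pool.Agent.Helper36.NB

/-- Generalised orthogonality relations: non conjugate elements. -/
theorem col_orth (O : ValuationSubring ℂ) {G : Type} [Group G] [Fintype G]
    (h2 : (2 : O) ∈ IsLocalRing.maximalIdeal O) (I : IrrData G) (u v : G)
    (hu : ∃ n : ℕ, orderOf u = 2 ^ n) (hv : ∃ n : ℕ, orderOf v = 2 ^ n)
    (x : MonoidAlgebra O (cent u)) (hx : x * x = x)
    (y : MonoidAlgebra O (cent v)) (hy : y * y = y) (huv : ¬ IsConj u v) :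
    ∑ a, I.chi a (toC O G (el O u * incl O _ x)) *
      I.chi a (toC O G (el O v⁻¹ * incl O _ y)) = 0 := by
  sorry

/-- Generalised orthogonality relations: the same element. -/
theorem col_same (O : ValuationSubring ℂ) {G : Type} [Group G] [Fintype G]
    (h2 : (2 : O) ∈ IsLocalRing.maximalIdeal O) (I : IrrData G) (u : G)
    (hu : ∃ n : ℕ, orderOf u = 2 ^ n) (J : IrrData (cent u))
    (x : MonoidAlgebra O (cent u)) (hx : x * x = x)
    (y : MonoidAlgebra O (cent u)) (hy : y * y = y) :
    ∑ a, I.chi a (toC O G (el O u * incl O _ x)) *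
      I.chi a (toC O G (el O u⁻¹ * incl O _ y)) =
    ∑ b, J.chi b (toC O (cent u) x) * J.chi b (toC O (cent u) y) := by
  sorry

end Pool.Agent.Helper36.NB
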