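import Mathlib
import Pool.Agent.Helper36.NB.Defs

open scoped BigOperators MonoidAlgebra
open Classical

namespace Pool.Agent.Helper36.NB

/-- The Cartan number of a block with one simple module is a power of `2`. -/
theorem cartan_pow_two (O : ValuationSubring ℂ) {G : Type} [Group G] [Fintype G]
    (h2 : (2 : O) ∈ IsLocalRing.maximalIdeal O) (I : IrrData G)
    (B : MonoidAlgebra O G) (hB : B * B = B) (hBc : ∀ a, a * B = B * a)
    (S : SimpleQuot (toK O G B)) (j : MonoidAlgebra O G) (hj : j * j = j) (hjB : j * B = j)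
    (hj1 : (S.ρ (toK O G j)).rank = 1) :
    ∃ n : ℕ, ∑ a, I.chi a (toC O G j) ^ 2 = (2 : ℂ) ^ n := by
  sorry

end Pool.Agent.Helper36.NB
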