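import Mathlib
import Pool.Agent.Helper36.NB.Defs

open scoped BigOperators MonoidAlgebra
open Classical

namespace Pool.Agent.Helper36.NB

/-- For a defect class of a block with one simple module: the Cartan number is `|D|`, and the
Brauer character is nonzero modulo `2` at the defect class. -/
theorem defect_data (O : ValuationSubring ℂ) {G : Type} [Group G] [Fintype G]
    (h2 : (2 : O) ∈ IsLocalRing.maximalIdeal O) (I : IrrData G)
    (e : MonoidAlgebra O G) (he : e * e = e) (hec : ∀ a, a * e = e * a)
    (S : SimpleQuot (toK O G e)) (j : MonoidAlgebra O G) (hj : j * j = j) (hje : j * e = j)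
    (hj1 : (S.ρ (toK O G j)).rank = 1) (x : G) (hx : Odd (orderOf x)) (hxr : IsConj x x⁻¹)
    (hex : IsLocalRing.residue O (e.coeff x) ≠ 0)
    (hK : ¬ IsNilpotent (toK O G (classSum O x * e))) (D : Subgroup G)
    (hD : Nat.card D = 2 ^ (Nat.card (cent x)).factorization 2) :
    ∑ a, I.chi a (toC O G j) ^ 2 = (Nat.card D : ℂ) ∧
      (S.ρ (el (resK O) x)).trace ≠ 0 ∧
      S.n.factorization 2 + (Nat.card D).factorization 2 = (Nat.card G).factorization 2 := by
  sorry

end Pool.Agent.Helper36.NB
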