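import Mathlib
import Pool.Agent.Helper36.NB.Defs

open scoped BigOperators MonoidAlgebra
open Classical

namespace Pool.Agent.Helper36.NB

theorem sum_fixed {k P X : Type} [Ring k] [CharP k 2] [Group P] [Finite P] [Fintype X]
    [MulAction P X] (hP : IsPGroup 2 P) (F : X → k) (hF : ∀ (p : P) (x : X), F (p • x) = F x) :
    ∑ x, F x = ∑ x ∈ Finset.univ.filter (fun x => ∀ p : P, p • x = x), F x := by
  sorry

/-- The Brauer homomorphism is multiplicative. -/
theorem res_mul {k : Type} [Field k] [CharP k 2] {G : Type} [Group G] [Finite G]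
    (Q : Subgroup G) (hQ : IsPGroup 2 Q) (H : Subgroup G)
    (hH : H = Subgroup.centralizer (Q : Set G)) (a b : MonoidAlgebra k G) (ha : Cen Q a)
    (hb : Cen Q b) : res H (a * b) = res H a * res H b := by
  sorry

theorem res_mul_cent {k : Type} [Field k] [CharP k 2] {G : Type} [Group G] [Finite G]
    (u : G) (hu : ∃ n : ℕ, orderOf u = 2 ^ n) (a b : MonoidAlgebra k G)
    (ha : el k u * a = a * el k u) (hb : el k u * b = b * el k u) :
    res (cent u) (a * b) = res (cent u) a * res (cent u) b := by
  sorry

/-- A central function only depends on the Brauer homomorphism. -/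
theorem lam_res {k : Type} [Field k] [CharP k 2] {G : Type} [Group G] [Finite G]
    (Q : Subgroup G) (hQ : IsPGroup 2 Q) (H : Subgroup G)
    (hH : H = Subgroup.centralizer (Q : Set G)) (lam : MonoidAlgebra k G →ₗ[k] k)
    (hlam : ∀ a b, lam (a * b) = lam (b * a)) (a : MonoidAlgebra k G) (ha : Cen Q a) :
    lam a = lam (incl k H (res H a)) := by
  sorry

end Pool.Agent.Helper36.NB
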