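import Mathlib
import Pool.Agent.Helper36.NB.Defs

open scoped BigOperators MonoidAlgebra
open Classical

namespace Pool.Agent.Helper36.NB

variable {G : Type} [Group G] [Fintype G] (I : IrrData G) (D : Subgroup G)

theorem kappa_char (i : MonoidAlgebra ℂ G) (hi : i * i = i) (hiD : Cen D i) (a : Fin I.r) :
    IsChar (fun u : D => I.chi a (el ℂ (u : G) * i)) := by
  sorry

theorem kappa_integral (i : MonoidAlgebra ℂ G) (hi : i * i = i) (u : G)
    (hiu : el ℂ u * i = i * el ℂ u) (a : Fin I.r) :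
    IsIntegral ℤ (I.chi a (el ℂ u * i)) := by
  sorry

/-- The form on `i V` for a real irreducible character. -/
theorem kappa_twi (t : G) (τ : D →* D) (hτ : ∀ u : D, ((τ u : D) : G) = t⁻¹ * u * t)
    (z : D) (hz : (z : G) = t * t) (i : MonoidAlgebra ℂ G) (hi : i * i = i) (hiD : Cen D i)
    (hiψ : el ℂ t * inv' i * el ℂ t⁻¹ = i) (a : Fin I.r)
    (hreal : ∀ g, I.ch a g⁻¹ = I.ch a g) :
    ∃ s : ℤ, (s = 1 ∨ s = -1) ∧ (∑ g : G, I.ch a (g * g)) / (Nat.card G : ℂ) = s ∧
      Twi τ z s (fun u : D => I.chi a (el ℂ (u : G) * i)) := by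
  sorry

end Pool.Agent.Helper36.NB
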