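import Mathlib
import Pool.Agent.Helper36.NB.Defs

open scoped BigOperators MonoidAlgebra
open Classical

namespace Pool.Agent.Helper36.NB

variable {N : Type} [Group N] [Fintype N] {ι : Type} [Fintype ι]

theorem dual_expand (κ : ι → N → ℂ) (m : N → ℕ) (hm : ∀ u, m u ≠ 0)
    (hκ : ∀ a, IsChar (κ a)) (horth : ∀ u v, ¬ IsConj u v → ∑ a, κ a u * κ a v⁻¹ = 0)
    (hnorm : ∀ u, ∑ a, κ a u * κ a u⁻¹ = (m u : ℂ) ^ 2 * Nat.card (Subgroup.centralizer {u}))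
    (f : N → ℂ) (hf : ∀ g h, f (g * h * g⁻¹) = f h) (w : N) :
    ∑ b, ((∑ u, f u * κ b u⁻¹ / (m u : ℂ) ^ 2) / (Nat.card N : ℂ)) * κ b w = f w := by
  sorry

theorem dual_inner (κ : ι → N → ℂ) (m : N → ℕ) (hm : ∀ u, m u ≠ 0)
    (hκ : ∀ a, IsChar (κ a)) (horth : ∀ u v, ¬ IsConj u v → ∑ a, κ a u * κ a v⁻¹ = 0)
    (hnorm : ∀ u, ∑ a, κ a u * κ a u⁻¹ = (m u : ℂ) ^ 2 * Nat.card (Subgroup.centralizer {u}))
    (f g : N → ℂ) (hf : ∀ x h, f (x * h * x⁻¹) = f h) (hg : ∀ x h, g (x * h * x⁻¹) = g h) :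
    ∑ b, ((∑ u, f u * κ b u⁻¹ / (m u : ℂ) ^ 2) / (Nat.card N : ℂ)) *
        (starRingEnd ℂ) ((∑ u, g u * κ b u⁻¹ / (m u : ℂ) ^ 2) / (Nat.card N : ℂ)) =
      (∑ u, f u * (starRingEnd ℂ) (g u) / (m u : ℂ) ^ 2) / (Nat.card N : ℂ) := by
  sorry

theorem bessel (κ : ι → N → ℂ) (m : N → ℕ) (hm : ∀ u, m u ≠ 0)
    (hκ : ∀ a, IsChar (κ a)) (horth : ∀ u v, ¬ IsConj u v → ∑ a, κ a u * κ a v⁻¹ = 0)
    (hnorm : ∀ u, ∑ a, κ a u * κ a u⁻¹ = (m u : ℂ) ^ 2 * Nat.card (Subgroup.centralizer {u}))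
    (a : ι) : ∑ u, Complex.normSq (κ a u) / (m u : ℝ) ^ 2 ≤ Nat.card N := by
  sorry

end Pool.Agent.Helper36.NB
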