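import Mathlib
import Pool.Agent.Helper36.NB.Defs

open scoped BigOperators MonoidAlgebra
open Classical

namespace Pool.Agent.Helper36.NB

theorem abs_eq {N : Type} [Group N] [Fintype N] (κ₀ : N → ℂ) (hκ : IsChar κ₀) (m : N → ℕ)
    (hm : ∀ u, m u ≠ 0) (hint : ∀ u, ∃ w : ℂ, IsIntegral ℤ w ∧ κ₀ u = m u * w)
    (hne : ∀ u, κ₀ u ≠ 0)
    (hB : ∑ u, Complex.normSq (κ₀ u) / (m u : ℝ) ^ 2 ≤ Nat.card N) (u : N) :
    κ₀ u * κ₀ u⁻¹ = (m u : ℂ) ^ 2 := by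
  sorry

end Pool.Agent.Helper36.NB
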