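import Mathlib
import Pool.Agent.Helper36.NB.Defs

open scoped BigOperators MonoidAlgebra
open Classical

namespace Pool.Agent.Helper36.NB

theorem count_odd {N : Type} [Group N] [Fintype N] (hN : IsPGroup 2 N) {ι : Type} [Fintype ι]
    (τ : N →* N) (z : N) (hτ2 : ∀ u, τ (τ u) = z⁻¹ * u * z) (hτz : τ z = z)
    (X : CountData N ι τ z) (O : ValuationSubring ℂ)
    (h2 : (2 : O) ∈ IsLocalRing.maximalIdeal O) :
    ∃ a₀, X.bar a₀ = a₀ ∧ X.d a₀ ≠ 0 ∧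
      (∃ k : ℕ, Odd k ∧ (∑ u, X.κ a₀ u) / (Nat.card N : ℂ) = k) ∧
      (∀ u, X.κ a₀ u ≠ 0) ∧ (∀ u, Odd (X.m u)) ∧
      ∀ u, X.c u = Nat.card (Subgroup.centralizer {u}) := by
  sorry

end Pool.Agent.Helper36.NB
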