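import Mathlib
import Pool.Agent.Helper36.NB.Defs

open scoped BigOperators MonoidAlgebra
open Classical

namespace Pool.Agent.Helper36.NB

theorem v_int {N : Type} [Group N] [Fintype N] (hN : IsPGroup 2 N) (κ₀ κ₁ lam : N → ℂ)
    (h₀ : IsChar κ₀) (h₁ : IsChar κ₁) (hl : IsChar lam) (m : N → ℕ) (hm : ∀ u, Odd (m u))
    (habs : ∀ u, κ₀ u * κ₀ u⁻¹ = (m u : ℂ) ^ 2)
    (hi₀ : ∀ u, ∃ w : ℂ, IsIntegral ℤ w ∧ κ₀ u = m u * w)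
    (hi₁ : ∀ u, ∃ w : ℂ, IsIntegral ℤ w ∧ κ₁ u = m u * w) :
    ∃ n : ℤ, (∑ u, κ₀ u * lam u * κ₁ u⁻¹ / (m u : ℂ) ^ 2) / (Nat.card N : ℂ) = n := by
  sorry

end Pool.Agent.Helper36.NB
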