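import Mathlib
import Pool.Agent.Helper36.NB.Defs

open scoped BigOperators MonoidAlgebra
open Classical

namespace Pool.Agent.Helper36.NB

theorem count_bij {N : Type} [Group N] [Fintype N] (hN : IsPGroup 2 N) {ι : Type} [Fintype ι]
    (τ : N →* N) (z : N) (X : CountData N ι τ z) (J : IrrData N) (a₀ : ι)
    (hne : ∀ u, X.κ a₀ u ≠ 0) (hm : ∀ u, Odd (X.m u))
    (hc : ∀ u, X.c u = Nat.card (Subgroup.centralizer {u})) :
    ∃ Γ : Fin J.r → ι, Function.Injective Γ ∧ (∀ a, X.d a ≠ 0 → ∃ b, Γ b = a) ∧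
      (∀ b, X.d (Γ b) = J.d b) ∧ (∀ b u, X.κ (Γ b) u = X.κ a₀ u * J.ch b u) ∧
      ∀ u, X.κ a₀ u * X.κ a₀ u⁻¹ = (X.m u : ℂ) ^ 2 := by
  sorry

end Pool.Agent.Helper36.NB
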