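import Mathlib
import Pool.Agent.Helper36.NB.Defs

open scoped BigOperators MonoidAlgebra
open Classical

namespace Pool.Agent.Helper36.NB

theorem count_final {N : Type} [Group N] [Fintype N] (hN : IsPGroup 2 N) {ι : Type}
    [Fintype ι] (τ : N →* N) (z : N) (hτ2 : ∀ u, τ (τ u) = z⁻¹ * u * z) (hτz : τ z = z)
    (X : CountData N ι τ z) (J : IrrData N) (O : ValuationSubring ℂ)
    (h2 : (2 : O) ∈ IsLocalRing.maximalIdeal O) :
    ∃ Γ : Fin J.r → ι, Function.Injective Γ ∧ (∀ a, X.d a ≠ 0 → ∃ b, Γ b = a) ∧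
      (∀ b, X.d (Γ b) = J.d b) ∧
      ∀ b, (X.fs (Γ b) : ℂ) = (∑ u, J.ch b (z * τ u * u)) / (Nat.card N : ℂ) := by
  sorry

end Pool.Agent.Helper36.NB
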