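import Mathlib
import Pool.Agent.Helper36.NB.Defs

open scoped BigOperators MonoidAlgebra
open Classical

namespace Pool.Agent.Helper36.NB

/-- The values of central functions at `u i` for a `2`-element `u`. -/
theorem local_trace (O : ValuationSubring ℂ) {G : Type} [Group G] [Finite G]
    (h2 : (2 : O) ∈ IsLocalRing.maximalIdeal O) (u : G) (hu : ∃ n : ℕ, orderOf u = 2 ^ n)
    (i : MonoidAlgebra O G) (hi : i * i = i) (hiu : el O u * i = i * el O u)
    (B : MonoidAlgebra O (cent u)) (hB : B * B = B) (hBc : ∀ a, a * B = B * a)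
    (hiB : res (cent u) (toK O G i) * toK O (cent u) B = res (cent u) (toK O G i))
    (S : SimpleQuot (toK O (cent u) B)) (j : MonoidAlgebra O (cent u)) (hj : j * j = j)
    (hjB : j * B = j) (hj1 : (S.ρ (toK O (cent u) j)).rank = 1) (T : TraceFun O G) (k : ℕ)
    (hk : Odd k) :
    T.f (el O (u ^ k) * i) =
      ((S.ρ (res (cent u) (toK O G i))).rank : ℂ) * T.f (el O (u ^ k) * incl O _ j) := by
  sorry

end Pool.Agent.Helper36.NB
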