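import Mathlib
import Pool.Agent.Helper36.NB.Defs

open scoped BigOperators MonoidAlgebra
open Classical

namespace Pool.Agent.Helper36.NB

theorem isIntegral_trace_of_pow {n : ℕ} (A : Matrix (Fin n) (Fin n) ℂ) (o : ℕ) (ho : 0 < o)
    (hA : A ^ (o + 1) = A) : IsIntegral ℤ A.trace := by
  sorry

/-- Averages of a character over a coset `x Q` with `x` commuting with `Q`. -/
theorem coset_int (L : Type) [Group L] [Fintype L] (η : L → ℂ) (hη : IsChar η)
    (Q : Subgroup L) (x : L) (hx : ∀ q ∈ Q, q * x = x * q) :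
    IsIntegral ℤ ((∑ q : Q, η (x * q)) / (Nat.card Q : ℂ)) := by
  sorry

/-- The trace of an idempotent matrix is a natural number. -/
theorem trace_idem {n : ℕ} (A : Matrix (Fin n) (Fin n) ℂ) (hA : A * A = A) :
    ∃ m : ℕ, A.trace = m := by
  sorry

end Pool.Agent.Helper36.NB
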