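import Mathlib
import Pool.Agent.Helper36.NB.Defs

open scoped BigOperators MonoidAlgebra
open Classical

namespace Pool.Agent.Helper36.NB

theorem intAt_add {l : ℕ} (hl : l.Prime) {x y : ℂ} (hx : IntAt l x) (hy : IntAt l y) :
    IntAt l (x + y) := by
  sorry

theorem intAt_mul {l : ℕ} (hl : l.Prime) {x y : ℂ} (hx : IntAt l x) (hy : IntAt l y) :
    IntAt l (x * y) := by
  sorry

theorem intAt_of_isIntegral {l : ℕ} (hl : l.Prime) {x : ℂ} (hx : IsIntegral ℤ x) :
    IntAt l x := by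
  sorry

theorem intAt_sum {l : ℕ} (hl : l.Prime) {ι : Type} (s : Finset ι) (f : ι → ℂ)
    (hf : ∀ i ∈ s, IntAt l (f i)) : IntAt l (∑ i ∈ s, f i) := by
  sorry

/-- A local form of Brauer's theorem: integrality of the average of a class function. -/
theorem brauer_local {G : Type} [Group G] [Fintype G] (l : ℕ) (hl : l.Prime) (F : G → ℂ)
    (hF : ∀ g h, F (g * h * g⁻¹) = F h) (hint : ∀ h, IntAt l (F h))
    (hloc : ∀ (x : G) (Q : Subgroup G), IsPGroup l Q → ¬ l ∣ orderOf x →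
      (∀ q ∈ Q, q * x = x * q) → IntAt l ((∑ q : Q, F (x * q)) / (Nat.card Q : ℂ))) :
    IntAt l ((∑ g : G, F g) / (Nat.card G : ℂ)) := by
  sorry

end Pool.Agent.Helper36.NB
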