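import Mathlib
import Pool.Agent.Helper36.NB.Defs

open scoped BigOperators MonoidAlgebra
open Classical

namespace Pool.Agent.Helper36.NB

variable {N : Type} [Group N]

/-- The twisted Frobenius-Schur indicator. -/
theorem fs_twisted [Fintype N] (J : IrrData N) (τ : N →* N) (z : N)
    (hτ2 : ∀ u, τ (τ u) = z⁻¹ * u * z) (hτz : τ z = z) (b : Fin J.r)
    (hb : ∀ u, J.ch b (τ u⁻¹) = J.ch b u) :
    ∃ s : ℤ, (s = 1 ∨ s = -1) ∧
      (∑ u, J.ch b (z * τ u * u)) / (Nat.card N : ℂ) = s ∧ Twi τ z s (J.ch b) := by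
  sorry

theorem fs_twisted_zero [Fintype N] (J : IrrData N) (τ : N →* N) (z : N)
    (hτ2 : ∀ u, τ (τ u) = z⁻¹ * u * z) (hτz : τ z = z) (b : Fin J.r)
    (hb : ¬ ∀ u, J.ch b (τ u⁻¹) = J.ch b u) :
    (∑ u, J.ch b (z * τ u * u)) = 0 := by
  sorry

end Pool.Agent.Helper36.NB
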