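import Mathlib
import Pool.Agent.Helper36.NB.Defs

open scoped BigOperators MonoidAlgebra
open Classical

namespace Pool.Agent.Helper36.NB

variable {N : Type} [Group N]

/-- Forms of opposite signs have an even-dimensional space of homomorphisms. -/
theorem twi_parity [Fintype N] (τ : N →* N) (z : N) (hτ2 : ∀ u, τ (τ u) = z⁻¹ * u * z)
    (hτz : τ z = z) (s s' : ℤ) (hs : s * s' = -1) (η θ : N → ℂ) (hη : Twi τ z s η)
    (hθ : Twi τ z s' θ) :
    ∃ m : ℕ, (∑ u, η u⁻¹ * θ u) / (Nat.card N : ℂ) = 2 * m := by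
  sorry

end Pool.Agent.Helper36.NB
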