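import Mathlib
import Pool.Agent.Helper36.NB.Defs

open scoped BigOperators MonoidAlgebra
open Classical

namespace Pool.Agent.Helper36.NB

variable {N : Type} [Group N]

theorem twi_mul [Finite N] (τ : N →* N) (z : N) (s s' : ℂ) (η θ : N → ℂ) (hη : Twi τ z s η)
    (hθ : Twi τ z s' θ) : Twi τ z (s * s') (fun u => η u * θ u) := by
  sorry

theorem twi_comp (τ : N →* N) (z : N) (hτz : τ z = z) (s : ℂ) (η : N → ℂ)
    (hη : Twi τ z s η) : Twi τ z s (fun u => η (τ u)) := by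
  sorry

theorem twi_alpha [Finite N] (τ : N →* N) (z : N) (hτ2 : ∀ u, τ (τ u) = z⁻¹ * u * z)
    (s : ℂ) (η : N → ℂ) (hη : Twi τ z s η) (u : N) : η (τ u⁻¹) = η u := by
  sorry

theorem twi_one [Finite N] (τ : N →* N) (z : N) : Twi τ z 1 (fun _ => (1 : ℂ)) := by
  sorry

theorem twi_isChar (τ : N →* N) (z : N) (s : ℂ) (η : N → ℂ) (hη : Twi τ z s η) :
    IsChar η := by
  sorry

end Pool.Agent.Helper36.NB
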